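import Pool.Agent.Y865.RF.Stm

/-!
# RF-DEG: a graph without weak `K₅` has a vertex of degree at most five (Mader)
-/

set_option autoImplicit false

namespace Pool.Agent.Y655.RF

open Finset Pool.Agent.Y865.RF

section walks

variable {V : Type}

lemma cn_refl (G : SimpleGraph V) {A : Set V} {u : V} (h : u ∈ A) : Cn G A u u :=
  ⟨SimpleGraph.Walk.nil, by
    intro z hz
    rw [SimpleGraph.Walk.support_nil, List.mem_singleton] at hz
    rw [hz]
    exact h⟩

lemma cn_trans {G : SimpleGraph V} {A : Set V} {u v w : V} (h : Cn G A u v) (h' : Cn G A v w) :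
    Cn G A u w := by
  obtain ⟨p, hp⟩ := h
  obtain ⟨q, hq⟩ := h'
  refine ⟨p.append q, ?_⟩
  intro z hz
  rw [SimpleGraph.Walk.mem_support_append_iff] at hz
  rcases hz with hz | hz
  · exact hp z hz
  · exact hq z hz

lemma cn_edge {G : SimpleGraph V} {A : Set V} {u v : V} (h : G.Adj u v) (hu : u ∈ A)
    (hv : v ∈ A) : Cn G A u v :=
  ⟨SimpleGraph.Walk.cons h SimpleGraph.Walk.nil, by
    intro z hz
    rw [SimpleGraph.Walk.support_cons, SimpleGraph.Walk.support_nil, List.mem_cons,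
      List.mem_singleton] at hz
    rcases hz with rfl | rfl
    · exact hu
    · exact hv⟩

/-- weak `K₅` inside a set of vertices -/
def WS (S : Set V) (G : SimpleGraph V) : Prop :=
  ∃ (x : Fin 5 → V) (A : Fin 5 → Fin 5 → Set V),
    (∀ a b, a < b → Cn G (A a b) (x a) (x b)) ∧
    (∀ a b c d, a < b → c < d → a ≠ c → a ≠ d → b ≠ c → b ≠ d → Disjoint (A a b) (A c d)) ∧
    ∀ a b, A a b ⊆ S

lemma cn_mono {G H : SimpleGraph V} (h : H ≤ G) {A : Set V} {u v : V} (hc : Cn H A u v) :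
    Cn G A u v := by
  obtain ⟨p, hp⟩ := hc
  refine ⟨p.mapLe h, ?_⟩
  intro z hz
  rw [SimpleGraph.Walk.support_mapLe_eq_support] at hz
  exact hp z hz

lemma ws_mono {G H : SimpleGraph V} (h : H ≤ G) {S T : Set V} (hST : S ⊆ T) (hw : WS S H) :
    WS T G := by
  obtain ⟨x, A, h1, h2, h3⟩ := hw
  exact ⟨x, A, fun a b hab => cn_mono h (h1 a b hab), h2, fun a b => (h3 a b).trans hST⟩

/-- the contraction of `v` into `u`; the vertex `v` becomes isolated -/
def ctr (G : SimpleGraph V) (u v : V) : SimpleGraph V where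
  Adj x y := x ≠ v ∧ y ≠ v ∧ x ≠ y ∧ (G.Adj x y ∨ (x = u ∧ G.Adj v y) ∨ (y = u ∧ G.Adj v x))
  symm := ⟨by
    rintro x y ⟨h1, h2, h3, h4⟩
    refine ⟨h2, h1, h3.symm, ?_⟩
    rcases h4 with h | h | h
    · exact Or.inl h.symm
    · exact Or.inr (Or.inr h)
    · exact Or.inr (Or.inl h)⟩
  loopless := ⟨fun x h => h.2.2.1 rfl⟩

/-- the deletion of `v`: the vertex `v` becomes isolated -/
def del (G : SimpleGraph V) (v : V) : SimpleGraph V where
  Adj x y := x ≠ v ∧ y ≠ v ∧ G.Adj x y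
  symm := ⟨fun x y h => ⟨h.2.1, h.1, h.2.2.symm⟩⟩
  loopless := ⟨fun x h => h.2.2.ne rfl⟩

/-- the deletion of an edge -/
def dele (G : SimpleGraph V) (a b : V) : SimpleGraph V where
  Adj x y := G.Adj x y ∧ ¬ (x = a ∧ y = b) ∧ ¬ (x = b ∧ y = a)
  symm := ⟨fun x y h => ⟨h.1.symm, fun k => h.2.2 ⟨k.2, k.1⟩, fun k => h.2.1 ⟨k.2, k.1⟩⟩⟩
  loopless := ⟨fun x h => h.1.ne rfl⟩

lemma del_le (G : SimpleGraph V) (v : V) : del G v ≤ G := fun _ _ h => h.2.2

lemma dele_le (G : SimpleGraph V) (a b : V) : dele G a b ≤ G := fun _ _ h => h.1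

lemma ctr_cn {G : SimpleGraph V} {u v : V} (huv : G.Adj u v) {A : Set V} {y z : V}
    (w : (ctr G u v).Walk y z) (hw : ∀ t ∈ w.support, t ∈ A) :
    Cn G {t | t ∈ A ∨ (t = v ∧ u ∈ A)} y z := by
  induction w with
  | nil =>
    exact cn_refl G (Or.inl (hw _ (by simp)))
  | @cons a b c h p ih =>
    have ha : a ∈ A := hw a (by simp)
    have hb : b ∈ A := hw b (by simp)
    have h1 := ih (fun t ht => hw t (by simp [ht]))
    refine cn_trans ?_ h1
    obtain ⟨-, -, -, h2⟩ := h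
    rcases h2 with h2 | ⟨rfl, h2⟩ | ⟨rfl, h2⟩
    · exact cn_edge h2 (Or.inl ha) (Or.inl hb)
    · exact cn_trans (cn_edge huv (Or.inl ha) (Or.inr ⟨rfl, ha⟩))
        (cn_edge h2 (Or.inr ⟨rfl, ha⟩) (Or.inl hb))
    · exact cn_trans (cn_edge h2.symm (Or.inl ha) (Or.inr ⟨rfl, hb⟩))
        (cn_edge huv.symm (Or.inr ⟨rfl, hb⟩) (Or.inl hb))

lemma ws_ctr {G : SimpleGraph V} {u v : V} (huv : G.Adj u v) {S T : Set V} (hvS : v ∉ S)
    (hST : S ⊆ T) (hvT : v ∈ T) (hw : WS S (ctr G u v)) : WS T G := by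
  obtain ⟨x, A, h1, h2, h3⟩ := hw
  refine ⟨x, fun a b => {t | t ∈ A a b ∨ (t = v ∧ u ∈ A a b)}, ?_, ?_, ?_⟩
  · intro a b hab
    obtain ⟨w, hw⟩ := h1 a b hab
    exact ctr_cn huv w hw
  · intro a b c d hab hcd h4 h5 h6 h7
    have h8 := h2 a b c d hab hcd h4 h5 h6 h7
    rw [Set.disjoint_left] at h8 ⊢
    rintro t (ht | ⟨e, ht⟩) (ht' | ⟨e', ht'⟩)
    · exact h8 ht ht'
    · rw [e'] at ht
      exact hvS (h3 _ _ ht)
    · rw [e] at ht'
      exact hvS (h3 _ _ ht')
    · exact h8 ht ht'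
  · rintro a b t (ht | ⟨rfl, -⟩)
    · exact hST (h3 _ _ ht)
    · exact hvT

/-- `K₅` or `K₅` with one edge replaced by a path of length two -/
lemma ws_five {G : SimpleGraph V} {S : Set V} (x : Fin 5 → V) (hx : Function.Injective x)
    (hS : ∀ i, x i ∈ S) (hadj : ∀ i j, i < j → ¬ (i = 0 ∧ j = 1) → G.Adj (x i) (x j))
    (h01 : G.Adj (x 0) (x 1) ∨ ∃ c ∈ S, (∀ i, c ≠ x i) ∧ G.Adj (x 0) c ∧ G.Adj c (x 1)) :
    WS S G := by
  classical
  rcases h01 with h01 | ⟨c, hcS, hc, h0, h1⟩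
  · refine ⟨x, fun i j => {x i, x j}, ?_, ?_, ?_⟩
    · intro a b hab
      apply cn_edge
      · by_cases h : a = 0 ∧ b = 1
        · rw [h.1, h.2]; exact h01
        · exact hadj a b hab h
      · exact Or.inl rfl
      · exact Or.inr rfl
    · intro a b c d _ _ h4 h5 h6 h7
      rw [Set.disjoint_left]
      rintro t (rfl | rfl) (h | h)
      · exact h4 (hx h)
      · exact h5 (hx h)
      · exact h6 (hx h)
      · exact h7 (hx h)
    · rintro a b t (rfl | rfl)
      · exact hS _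
      · exact hS _
  · refine ⟨x, fun i j => {t | t = x i ∨ t = x j ∨ (t = c ∧ i = 0 ∧ j = 1)}, ?_, ?_, ?_⟩
    · intro a b hab
      by_cases h : a = 0 ∧ b = 1
      · obtain ⟨rfl, rfl⟩ := h
        exact cn_trans (cn_edge h0 (Or.inl rfl) (Or.inr (Or.inr ⟨rfl, rfl, rfl⟩)))
          (cn_edge h1 (Or.inr (Or.inr ⟨rfl, rfl, rfl⟩)) (Or.inr (Or.inl rfl)))
      · exact cn_edge (hadj a b hab h) (Or.inl rfl) (Or.inr (Or.inl rfl))
    · intro a b a' b' _ _ h4 h5 h6 h7
      rw [Set.disjoint_left]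
      rintro t (rfl | rfl | ⟨rfl, e1, e2⟩) (h | h | ⟨h, e1', e2'⟩)
      · exact h4 (hx h)
      · exact h5 (hx h)
      · exact hc _ h.symm
      · exact h6 (hx h)
      · exact h7 (hx h)
      · exact hc _ h.symm
      · exact hc _ h
      · exact hc _ h
      · exact h4 (e1.trans e1'.symm)
    · rintro a b t (rfl | rfl | ⟨rfl, -, -⟩)
      · exact hS _
      · exact hS _
      · exact hcS

lemma ws_five' {G : SimpleGraph V} {S : Set V} {a b c d e : V} (ha : a ∈ S) (hb : b ∈ S)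
    (hc : c ∈ S) (hd : d ∈ S) (he : e ∈ S) (hab : a ≠ b) (ac : G.Adj a c) (ad : G.Adj a d)
    (ae : G.Adj a e) (bc : G.Adj b c) (bd : G.Adj b d) (be : G.Adj b e) (cd : G.Adj c d)
    (ce : G.Adj c e) (de : G.Adj d e)
    (h01 : G.Adj a b ∨ ∃ t ∈ S, t ≠ c ∧ t ≠ d ∧ t ≠ e ∧ G.Adj a t ∧ G.Adj t b) : WS S G := by
  apply ws_five ![a, b, c, d, e]
  · intro i j h
    fin_cases i <;> fin_cases j <;>
      simp [hab, hab.symm, ac.ne, ac.ne', ad.ne, ad.ne', ae.ne, ae.ne', bc.ne, bc.ne', bd.ne,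
        bd.ne', be.ne, be.ne', cd.ne, cd.ne', ce.ne, ce.ne', de.ne, de.ne'] at h ⊢
  · intro i
    fin_cases i <;> simp [ha, hb, hc, hd, he]
  · intro i j hij hn
    fin_cases i <;> fin_cases j <;>
      simp at hij hn ⊢ <;> assumption
  · rcases h01 with h | ⟨t, htS, t1, t2, t3, t4, t5⟩
    · exact Or.inl h
    · refine Or.inr ⟨t, htS, ?_, t4, t5⟩
      intro i
      fin_cases i <;> simp [t1, t2, t3, t4.ne', t5.ne]

end walks

section count

variable {V : Type} [Fintype V] [DecidableEq V]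

open Classical in
/-- the ordered adjacent pairs -/
noncomputable def EE (G : SimpleGraph V) : Finset (V × V) := univ.filter (fun p => G.Adj p.1 p.2)

open Classical in
/-- the neighbours -/
noncomputable def NN (G : SimpleGraph V) (x : V) : Finset V := univ.filter (fun y => G.Adj x y)

lemma mem_EE {G : SimpleGraph V} {p : V × V} : p ∈ EE G ↔ G.Adj p.1 p.2 := by
  unfold EE
  simp

lemma mem_NN {G : SimpleGraph V} {x y : V} : y ∈ NN G x ↔ G.Adj x y := by
  unfold NN
  simp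

/-- the edges are inside `S` -/
def In (S : Finset V) (G : SimpleGraph V) : Prop := ∀ x y, G.Adj x y → x ∈ S ∧ y ∈ S

lemma card_EE {G : SimpleGraph V} {S : Finset V} (h : In S G) :
    (EE G).card = ∑ x ∈ S, (NN G x).card := by
  rw [card_eq_sum_card_fiberwise (f := Prod.fst) (t := S)
    (fun p hp => (h _ _ (mem_EE.1 hp)).1)]
  apply sum_congr rfl
  intro x _
  apply card_bij (fun p _ => p.2)
  · intro p hp
    rw [mem_filter, mem_EE] at hp
    rw [mem_NN, ← hp.2]
    exact hp.1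
  · intro p hp q hq hpq
    rw [mem_filter] at hp hq
    exact Prod.ext (hp.2.trans hq.2.symm) hpq
  · intro y hy
    refine ⟨(x, y), ?_, rfl⟩
    rw [mem_filter, mem_EE]
    exact ⟨mem_NN.1 hy, rfl⟩

lemma card_EE_le {G : SimpleGraph V} {S : Finset V} (h : In S G) :
    (EE G).card ≤ S.card * S.card - S.card := by
  rw [← offDiag_card]
  apply card_le_card
  intro p hp
  have h1 := mem_EE.1 hp
  have h2 := h _ _ h1
  rw [mem_offDiag]
  exact ⟨h2.1, h2.2, h1.ne⟩

lemma card_dele {G : SimpleGraph V} (a b : V) : (EE G).card ≤ (EE (dele G a b)).card + 2 := by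
  have h1 : EE G ⊆ EE (dele G a b) ∪ {(a, b), (b, a)} := by
    intro p hp
    rw [mem_union, mem_insert, mem_singleton, mem_EE]
    have hp' := mem_EE.1 hp
    by_cases h1 : p.1 = a ∧ p.2 = b
    · exact Or.inr (Or.inl (Prod.ext h1.1 h1.2))
    · by_cases h2 : p.1 = b ∧ p.2 = a
      · exact Or.inr (Or.inr (Prod.ext h2.1 h2.2))
      · exact Or.inl ⟨hp', h1, h2⟩
  exact (card_le_card h1).trans ((card_union_le _ _).trans (Nat.add_le_add_left card_le_two _))

lemma card_dele_lt {G : SimpleGraph V} {a b : V} (h : G.Adj a b) :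
    (EE (dele G a b)).card < (EE G).card := by
  apply card_lt_card
  have h1 : EE (dele G a b) ⊆ EE G := by
    intro p hp
    have h2 := mem_EE.1 hp
    exact mem_EE.2 h2.1
  rw [ssubset_iff_of_subset h1]
  refine ⟨(a, b), mem_EE.2 h, fun h2 => ?_⟩
  have h3 := mem_EE.1 h2
  exact h3.2.1 ⟨rfl, rfl⟩

lemma card_del (G : SimpleGraph V) (v : V) :
    (EE G).card ≤ (EE (del G v)).card + 2 * (NN G v).card := by
  have h1 : EE G ⊆ EE (del G v) ∪ ((NN G v).image (fun y => (v, y)) ∪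
      (NN G v).image (fun y => (y, v))) := by
    intro p hp
    have hp' := mem_EE.1 hp
    rw [mem_union, mem_union, mem_image, mem_image, mem_EE]
    by_cases h1 : p.1 = v
    · refine Or.inr (Or.inl ⟨p.2, ?_, Prod.ext h1.symm rfl⟩)
      rw [mem_NN, ← h1]
      exact hp'
    · by_cases h2 : p.2 = v
      · refine Or.inr (Or.inr ⟨p.1, ?_, Prod.ext rfl h2.symm⟩)
        rw [mem_NN, ← h2]
        exact hp'.symm
      · exact Or.inl ⟨h1, h2, hp'⟩
  have h2 := card_le_card h1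
  have h3 := card_union_le (EE (del G v)) ((NN G v).image (fun y => (v, y)) ∪
      (NN G v).image (fun y => (y, v)))
  have h4 := card_union_le ((NN G v).image (fun y => (v, y))) ((NN G v).image (fun y => (y, v)))
  have h5 := card_image_le (s := NN G v) (f := fun y => (v, y))
  have h6 := card_image_le (s := NN G v) (f := fun y => (y, v))
  omega

lemma card_ctr {G : SimpleGraph V} {u v : V} (huv : G.Adj u v) :
    (EE G).card ≤ (EE (ctr G u v)).card + 2 + 2 * (NN G u ∩ NN G v).card := by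
  set Y := (NN G v) \ (insert u (NN G u)) with hY
  have hYc : (NN G v).card ≤ Y.card + (1 + (NN G u ∩ NN G v).card) := by
    have h1 : NN G v ⊆ Y ∪ ({u} ∪ (NN G u ∩ NN G v)) := by
      intro y hy
      rw [mem_union, mem_union, mem_singleton, mem_inter, hY, mem_sdiff, mem_insert]
      tauto
    have h2 := card_le_card h1
    have h3 := card_union_le Y ({u} ∪ (NN G u ∩ NN G v))
    have h4 := card_union_le {u} (NN G u ∩ NN G v)
    rw [card_singleton] at h4
    omega
  have h1 := card_del G v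
  have huY : u ∉ Y := by
    intro h
    rw [hY, mem_sdiff, mem_insert] at h
    exact h.2 (Or.inl rfl)
  have hYm : ∀ y ∈ Y, G.Adj v y ∧ y ≠ u ∧ ¬ G.Adj u y := by
    intro y hy
    rw [hY, mem_sdiff, mem_insert, mem_NN, mem_NN] at hy
    exact ⟨hy.1, fun h => hy.2 (Or.inl h), fun h => hy.2 (Or.inr h)⟩
  have h2 : EE (del G v) ∪ (Y.image (fun y => (u, y)) ∪ Y.image (fun y => (y, u))) ⊆
      EE (ctr G u v) := by
    intro p hp
    rw [mem_union, mem_union, mem_image, mem_image] at hp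
    rw [mem_EE]
    rcases hp with hp | ⟨y, hy, rfl⟩ | ⟨y, hy, rfl⟩
    · obtain ⟨k1, k2, k3⟩ := mem_EE.1 hp
      exact ⟨k1, k2, k3.ne, Or.inl k3⟩
    · obtain ⟨k1, k2, k3⟩ := hYm y hy
      exact ⟨huv.ne, k1.ne', k2.symm, Or.inr (Or.inl ⟨rfl, k1⟩)⟩
    · obtain ⟨k1, k2, k3⟩ := hYm y hy
      exact ⟨k1.ne', huv.ne, k2, Or.inr (Or.inr ⟨rfl, k1⟩)⟩
  have h3 := card_le_card h2
  have d1 : Disjoint (Y.image (fun y => (u, y))) (Y.image (fun y => (y, u))) := by
    rw [disjoint_left]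
    intro p hp hp'
    rw [mem_image] at hp hp'
    obtain ⟨y, hy, rfl⟩ := hp
    obtain ⟨y', hy', h⟩ := hp'
    rw [Prod.mk.injEq] at h
    rw [h.1] at hy'
    exact huY hy'
  have d2 : Disjoint (EE (del G v)) (Y.image (fun y => (u, y)) ∪ Y.image (fun y => (y, u))) := by
    rw [disjoint_left]
    intro p hp hp'
    obtain ⟨k1, k2, k3⟩ := mem_EE.1 hp
    rw [mem_union, mem_image, mem_image] at hp'
    rcases hp' with ⟨y, hy, rfl⟩ | ⟨y, hy, rfl⟩
    · exact (hYm y hy).2.2 k3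
    · exact (hYm y hy).2.2 k3.symm
  rw [card_union_of_disjoint d2, card_union_of_disjoint d1,
    card_image_of_injective _ (fun a b h => (Prod.mk.inj h).2),
    card_image_of_injective _ (fun a b h => (Prod.mk.inj h).1)] at h3
  omega

/-- the last case: the neighbourhood of `v` -/
lemma last_case {G : SimpleGraph V} {S : Finset V} (hS : In S G) {v : V}
    (h4 : 4 ≤ (NN G v).card) (h5 : (NN G v).card ≤ 5)
    (hc : ∀ u ∈ NN G v, 3 ≤ (NN G u ∩ NN G v).card) : WS (S : Set V) G := by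
  have hvN : ∀ y ∈ NN G v, G.Adj v y := fun y hy => mem_NN.1 hy
  have hNS : ∀ y ∈ NN G v, y ∈ (S : Set V) := fun y hy => mem_coe.2 (hS _ _ (hvN y hy)).2
  have hvS : v ∈ (S : Set V) := by
    obtain ⟨y, hy⟩ : (NN G v).Nonempty := by
      rw [← card_pos]
      omega
    exact mem_coe.2 (hS _ _ (hvN y hy)).1
  by_cases hcl : ∀ a ∈ NN G v, ∀ b ∈ NN G v, a ≠ b → G.Adj a b
  · -- a clique
    obtain ⟨T, hT, hT4⟩ := exists_subset_card_eq h4
    obtain ⟨a, b, c, d, hab, hac, had, hbc, hbd, hcd, rfl⟩ := card_eq_four.1 hT4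
    have ha : a ∈ NN G v := hT (by simp)
    have hb : b ∈ NN G v := hT (by simp)
    have hc : c ∈ NN G v := hT (by simp)
    have hd : d ∈ NN G v := hT (by simp)
    exact ws_five' (hNS a ha) (hNS b hb) (hNS c hc) (hNS d hd) hvS hab (hcl a ha c hc hac)
      (hcl a ha d hd had) (hvN a ha).symm (hcl b hb c hc hbc) (hcl b hb d hd hbd) (hvN b hb).symm
      (hcl c hc d hd hcd) (hvN c hc).symm (hvN d hd).symm (Or.inl (hcl a ha b hb hab))
  · push Not at hcl
    obtain ⟨a, ha, b, hb, hab, hnab⟩ := hcl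
    have hR : ((NN G v) \ {a, b}).card ≤ 3 := by
      have h1 : ({a, b} : Finset V) ⊆ NN G v := by
        intro y hy
        rw [mem_insert, mem_singleton] at hy
        rcases hy with rfl | rfl
        · exact ha
        · exact hb
      rw [card_sdiff_of_subset h1, card_pair hab]
      omega
    have hRa : NN G a ∩ NN G v ⊆ (NN G v) \ {a, b} := by
      intro y hy
      rw [mem_inter, mem_NN] at hy
      rw [mem_sdiff, mem_insert, mem_singleton]
      refine ⟨hy.2, ?_⟩
      rintro (rfl | rfl)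
      · exact hy.1.ne rfl
      · exact hnab hy.1
    have hRb : NN G b ∩ NN G v ⊆ (NN G v) \ {a, b} := by
      intro y hy
      rw [mem_inter, mem_NN] at hy
      rw [mem_sdiff, mem_insert, mem_singleton]
      refine ⟨hy.2, ?_⟩
      rintro (rfl | rfl)
      · exact hnab hy.1.symm
      · exact hy.1.ne rfl
    have ea := eq_of_subset_of_card_le hRa (hR.trans (hc a ha))
    have eb := eq_of_subset_of_card_le hRb (hR.trans (hc b hb))
    have hR3 : ((NN G v) \ {a, b}).card = 3 := by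
      apply le_antisymm hR
      rw [← ea]
      exact hc a ha
    obtain ⟨c, d, e, hcd, hce, hde, hR⟩ := card_eq_three.1 hR3
    have hm : ∀ y ∈ ({c, d, e} : Finset V), y ∈ NN G v ∧ G.Adj a y ∧ G.Adj b y := by
      intro y hy
      rw [← hR] at hy
      have h1 := hy
      have h2 := hy
      rw [← ea, mem_inter, mem_NN] at h1
      rw [← eb, mem_inter, mem_NN] at h2
      exact ⟨h1.2, h1.1, h2.1⟩
    have key : ∃ p q r, p ∈ ({c, d, e} : Finset V) ∧ q ∈ ({c, d, e} : Finset V) ∧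
        r ∈ ({c, d, e} : Finset V) ∧ G.Adj p q ∧ r ≠ p ∧ r ≠ q := by
      by_cases k1 : G.Adj c d
      · exact ⟨c, d, e, by simp, by simp, by simp, k1, hce.symm, hde.symm⟩
      by_cases k2 : G.Adj c e
      · exact ⟨c, e, d, by simp, by simp, by simp, k2, hcd.symm, hde⟩
      exfalso
      have h1 : NN G c ∩ NN G v ⊆ {a, b} := by
        intro y hy
        rw [mem_inter, mem_NN] at hy
        by_contra hcon
        have h2 : y ∈ (NN G v) \ {a, b} := by
          rw [mem_sdiff]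
          exact ⟨hy.2, hcon⟩
        rw [hR, mem_insert, mem_insert, mem_singleton] at h2
        rcases h2 with rfl | rfl | rfl
        · exact hy.1.ne rfl
        · exact k1 hy.1
        · exact k2 hy.1
      have h2 := card_le_card h1
      rw [card_pair hab] at h2
      have h3 := hc c (hm c (by simp)).1
      omega
    obtain ⟨p, q, r, hp, hq, hr, hpq, hrp, hrq⟩ := key
    obtain ⟨p1, p2, p3⟩ := hm p hp
    obtain ⟨q1, q2, q3⟩ := hm q hq
    obtain ⟨r1, r2, r3⟩ := hm r hr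
    exact ws_five' (hNS a ha) (hNS b hb) (hNS p p1) (hNS q q1) hvS hab p2 q2 (hvN a ha).symm
      p3 q3 (hvN b hb).symm hpq (hvN p p1).symm (hvN q q1).symm
      (Or.inr ⟨r, hNS r r1, hrp, hrq, (hvN r r1).ne', r2, r3.symm⟩)

/-- Mader's bound -/
lemma mader : ∀ (n : ℕ) (S : Finset V) (G : SimpleGraph V), S.card = n → In S G → 3 ≤ n →
    6 * n ≤ (EE G).card + 10 → WS (S : Set V) G := by
  intro n
  induction n using Nat.strong_induction_on with
  | _ n ih =>
  intro S G
  obtain ⟨k, hk⟩ : ∃ k, k = (EE G).card := ⟨_, rfl⟩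
  induction k using Nat.strong_induction_on generalizing G with
  | _ k ihk =>
  intro hn hS h3 hD
  by_cases hdel : ∃ a b, G.Adj a b ∧ 6 * n ≤ (EE (dele G a b)).card + 10
  · obtain ⟨a, b, hab, h⟩ := hdel
    have h1 := ihk _ (by rw [hk]; exact card_dele_lt hab) (dele G a b) rfl hn
      (fun x y h => hS x y h.1) h3 h
    exact ws_mono (dele_le G a b) (le_refl _) h1
  push Not at hdel
  have hup := card_EE_le hS
  rw [hn] at hup
  have hn5 : 5 ≤ n := by
    by_contra hcon
    have : n = 3 ∨ n = 4 := by omega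
    rcases this with rfl | rfl <;> omega
  have hlt : (EE G).card < 6 * n := by
    obtain ⟨p, hp⟩ : (EE G).Nonempty := by
      rw [← card_pos]
      omega
    have h1 := hdel p.1 p.2 (mem_EE.1 hp)
    have h2 := card_dele (G := G) p.1 p.2
    omega
  obtain ⟨v, hv, hv5⟩ : ∃ v ∈ S, (NN G v).card ≤ 5 := by
    by_contra hcon
    push Not at hcon
    rw [card_EE hS] at hlt
    have h1 : ∑ _x ∈ S, 6 ≤ ∑ x ∈ S, (NN G x).card := sum_le_sum fun x hx => hcon x hx
    rw [sum_const, smul_eq_mul, hn] at h1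
    omega
  have hcard : (S.erase v).card = n - 1 := by rw [card_erase_of_mem hv, hn]
  have hsub : ((S.erase v : Finset V) : Set V) ⊆ (S : Set V) := by
    intro x hx
    exact mem_coe.2 (mem_of_mem_erase (mem_coe.1 hx))
  rcases le_or_gt (NN G v).card 3 with hd | hd
  · -- deletion
    have h1 := card_del G v
    have h2 := ih (n - 1) (by omega) (S.erase v) (del G v) hcard (by
      intro x y h
      have h2 := hS x y h.2.2
      exact ⟨mem_erase.2 ⟨h.1, h2.1⟩, mem_erase.2 ⟨h.2.1, h2.2⟩⟩) (by omega) (by omega)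
    exact ws_mono (del_le G v) hsub h2
  · by_cases hc : ∃ u ∈ NN G v, (NN G u ∩ NN G v).card ≤ 2
    · obtain ⟨u, hu, hc⟩ := hc
      have huv : G.Adj u v := (mem_NN.1 hu).symm
      have h1 := card_ctr huv
      have h2 := ih (n - 1) (by omega) (S.erase v) (ctr G u v) hcard (by
        rintro x y ⟨k1, k2, k3, k4⟩
        rw [mem_erase, mem_erase]
        rcases k4 with k4 | ⟨rfl, k4⟩ | ⟨rfl, k4⟩
        · exact ⟨⟨k1, (hS _ _ k4).1⟩, ⟨k2, (hS _ _ k4).2⟩⟩
        · exact ⟨⟨k1, (hS _ _ huv).1⟩, ⟨k2, (hS _ _ k4).2⟩⟩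
        · exact ⟨⟨k1, (hS _ _ k4).2⟩, ⟨k2, (hS _ _ huv).1⟩⟩) (by omega) (by omega)
      exact ws_ctr huv (by simp) hsub (mem_coe.2 hv) h2
    · push Not at hc
      exact last_case hS hd hv5 (fun u hu => hc u hu)

end count

/-- RF-DEG -/
theorem t_DEG : S_DEG := by
  classical
  intro V _ _ G hG
  by_contra hcon
  push Not at hcon
  have : Fintype V := Fintype.ofFinite V
  apply hG
  have hN : ∀ v, 6 ≤ (NN G v).card := by
    intro v
    have h1 := hcon v
    have h2 : (G.neighborSet v) = ((NN G v : Finset V) : Set V) := by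
      ext y
      rw [SimpleGraph.mem_neighborSet, mem_coe, mem_NN]
    rw [h2, Set.ncard_coe_finset] at h1
    exact h1
  have hIn : In (univ : Finset V) G := fun x y _ => ⟨mem_univ _, mem_univ _⟩
  have h1 := card_EE hIn
  have h2 : ∑ _x ∈ (univ : Finset V), 6 ≤ ∑ x ∈ (univ : Finset V), (NN G x).card :=
    sum_le_sum fun x _ => hN x
  rw [sum_const, smul_eq_mul] at h2
  obtain ⟨v⟩ := ‹Nonempty V›
  have h3 : 6 ≤ (univ : Finset V).card := (hN v).trans (card_le_card (subset_univ _))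
  obtain ⟨x, A, k1, k2, -⟩ := mader _ (univ : Finset V) G rfl hIn (by omega) (by omega)
  exact ⟨x, A, k1, k2⟩

end Pool.Agent.Y655.RF
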